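import Pool.Agent.N208.BT.Stm3
import Pool.Agent.N73.BTbase
import Pool.Agent.N966.BTEV

/-!
# Project BT (helper208), part PI (helper803): a nonzero ideal contains all long roots
-/

set_option autoImplicit false

noncomputable section

namespace Pool.Agent.N803.BTPI

open Matrix
open Pool.Agent.N208.BT Pool.Agent.N73.BT

variable {n : ℕ}

lemma trace_R (a b : V n) : (R a b).trace = hf a b := by
  have h1 : hf a b = ∑ j, a j * hf (Pi.single j 1) b := by
    have h2 : a = ∑ j, a j • (Pi.single j (1 : ℂ) : V n) := by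
      conv_lhs => rw [← Finset.univ_sum_single a]
      refine Finset.sum_congr rfl fun j _ => ?_
      rw [← Pi.single_smul, smul_eq_mul, mul_one]
    have h3 : ∀ (s : Finset (Fin (n + 1))) (c : Fin (n + 1) → V n),
        hf (∑ j ∈ s, c j) b = ∑ j ∈ s, hf (c j) b := by
      intro s c
      classical
      induction s using Finset.induction_on with
      | empty => rw [Finset.sum_empty, Finset.sum_empty, hf_zero_left]
      | insert j s hj ih => rw [Finset.sum_insert hj, Finset.sum_insert hj, hf_add_left, ih]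
    conv_lhs => rw [h2]
    rw [h3]
    exact Finset.sum_congr rfl fun j _ => hf_smul_left _ _ _
  rw [h1]
  rfl

lemma mul_R (X : M n) (a b : V n) : X * R a b = R (X *ᵥ a) b := by
  apply mat_ext
  intro x
  rw [← Matrix.mulVec_mulVec, R_apply, R_apply, Matrix.mulVec_smul]

lemma R_mul_R (a b c d : V n) : R a b * R c d = hf c b • R a d := by
  rw [mul_R, R_apply, R_smul_left]

lemma skew_iR (a : V n) : IsSk (Complex.I • R a a) := by
  intro x y
  rw [Matrix.smul_mulVec, Matrix.smul_mulVec, R_apply, R_apply, hf_smul_left, hf_smul_left,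
    hf_smul_right, hf_smul_right, ← hf_conj y a]
  simp only [Complex.star_def, Complex.conj_I]
  ring

lemma skew_scal {c : ℂ} (hc : star c = -c) : IsSk (c • (1 : M n)) := by
  intro x y
  rw [Matrix.smul_mulVec, Matrix.smul_mulVec, Matrix.one_mulVec, Matrix.one_mulVec, hf_smul_left,
    hf_smul_right, hc]
  ring

lemma skew_sub {X Y : M n} (hX : IsSk X) (hY : IsSk Y) : IsSk (X - Y) := by
  intro x y
  have h1 := hX x y
  have h2 := hY x y
  rw [Matrix.sub_mulVec, Matrix.sub_mulVec, hf_sub_left, hf_sub_right]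
  linear_combination h1 - h2

/-- the main step -/
lemma step {𝔫 : Submodule ℝ (M n)} (h1 : ∀ X ∈ 𝔫, IsSk X ∧ X.trace = 0)
    (h2 : ∀ x : V n, hf x x = 0 →
      ∀ Y ∈ 𝔫, (Complex.I • R x x) * Y - Y * (Complex.I • R x x) ∈ 𝔫)
    {X : M n} (hX : X ∈ 𝔫) {u : V n} (hu : hf u u = 0) (hc : hf (X *ᵥ u) u ≠ 0) :
    Complex.I • R u u ∈ 𝔫 := by
  have h3 := h2 u hu _ (h2 u hu X hX)
  obtain ⟨c, hcd⟩ : ∃ c, c = hf (X *ᵥ u) u := ⟨_, rfl⟩
  have hc0 : c ≠ 0 := by rw [hcd]; exact hc
  have hcs : star c = -c := by
    have h4 := (h1 X hX).1 u u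
    rw [hf_conj (X *ᵥ u) u, ← hcd] at h4
    linear_combination h4
  have hRR : R u u * R u u = 0 := by rw [R_mul_R, hu, zero_smul]
  have hRXR : R u u * X * R u u = c • R u u := by
    rw [mul_assoc, mul_R, R_mul_R, ← hcd]
  have e : (Complex.I • R u u) * ((Complex.I • R u u) * X - X * (Complex.I • R u u)) -
      ((Complex.I • R u u) * X - X * (Complex.I • R u u)) * (Complex.I • R u u) =
      (2 * c) • R u u := by
    have e1 : (Complex.I • R u u) * ((Complex.I • R u u) * X - X * (Complex.I • R u u)) -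
      ((Complex.I • R u u) * X - X * (Complex.I • R u u)) * (Complex.I • R u u) =
      (Complex.I * Complex.I) • (R u u * R u u * X) -
        (2 * (Complex.I * Complex.I)) • (R u u * X * R u u) +
        (Complex.I * Complex.I) • (X * (R u u * R u u)) := by
      simp only [mul_sub, sub_mul, smul_mul_assoc, mul_smul_comm, smul_smul, mul_assoc]
      module
    rw [e1, hRR, hRXR, Complex.I_mul_I, zero_mul, mul_zero, smul_zero]
    module
  rw [e] at h3
  have h5 : star (Complex.I / (2 * c)) = Complex.I / (2 * c) := by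
    rw [star_div₀, star_mul', hcs]
    simp only [Complex.star_def, Complex.conj_I, map_ofNat]
    rw [mul_neg, neg_div_neg_eq]
  have h6 := real_mem h3 h5
  rw [smul_smul, div_mul_cancel₀ _ (mul_ne_zero two_ne_zero hc0)] at h6
  exact h6

/-- polarization -/
lemma polar {X : M n} (h : ∀ a : V n, hf (X *ᵥ a) a = 0) : X = 0 := by
  apply mat_ext
  intro b
  rw [Matrix.zero_mulVec]
  refine Pool.Agent.N966.BTEV.hf_nondeg fun a => ?_
  have key : ∀ a b : V n, hf (X *ᵥ a) b + hf (X *ᵥ b) a = 0 := by
    intro a b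
    have h1 := h (a + b)
    rw [Matrix.mulVec_add, hf_add_left, hf_add_right, hf_add_right, h a, h b] at h1
    linear_combination h1
  have h1 := key b a
  have h2 := key b (Complex.I • a)
  rw [Matrix.mulVec_smul, hf_smul_left, hf_smul_right] at h2
  simp only [Complex.star_def, Complex.conj_I] at h2
  have h3 : hf (X *ᵥ b) a = 0 := by
    have h4 : (2 * Complex.I) * hf (X *ᵥ b) a = 0 := by
      linear_combination Complex.I * h1 - h2
    rcases mul_eq_zero.1 h4 with h5 | h5
    · exact absurd h5 (mul_ne_zero two_ne_zero Complex.I_ne_zero)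
    · exact h5
  rw [hf_conj, h3, star_zero]

theorem main : S_SU → S_PI := by
  intro hSU n 𝔫 h1 h2 h3 v hv
  -- (A)
  obtain ⟨X, hX, u, hu, hc⟩ : ∃ X ∈ 𝔫, ∃ u : V n, hf u u = 0 ∧ hf (X *ᵥ u) u ≠ 0 := by
    by_contra hcon
    push Not at hcon
    obtain ⟨X, hX, hX0⟩ := h3
    apply hX0
    have htr : ∀ Z : M n, IsSk Z → Z.trace = 0 → (X * Z).trace = 0 := by
      intro Z hZ hZt
      have hmem := hSU n Z hZ hZt
      refine Submodule.span_induction (p := fun Z _ => (X * Z).trace = 0) ?_ ?_ ?_ ?_ hmem
      · rintro Y ⟨x, hx, rfl⟩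
        rw [mul_smul_comm, Matrix.trace_smul, mul_R, trace_R, hcon X hX x hx, smul_zero]
      · rw [mul_zero, Matrix.trace_zero]
      · intro Y Z _ _ hY hZ
        rw [mul_add, Matrix.trace_add, hY, hZ, add_zero]
      · intro c Y _ hY
        rw [mul_smul_comm, Matrix.trace_smul, hY, smul_zero]
    apply polar
    intro a
    have hn : ((n : ℂ) + 1) ≠ 0 := by exact_mod_cast Nat.succ_ne_zero n
    have hst : star (Complex.I * hf a a / ((n : ℂ) + 1)) = -(Complex.I * hf a a / ((n : ℂ) + 1)) := by
      rw [star_div₀, star_mul', Pool.Agent.N73.BT.hf_self, star_add, star_one, star_natCast]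
      simp only [Complex.star_def, Complex.conj_I]
      ring
    have h4 := htr (Complex.I • R a a - (Complex.I * hf a a / ((n : ℂ) + 1)) • (1 : M n))
      (skew_sub (skew_iR a) (skew_scal hst)) (by
        rw [Matrix.trace_sub, Matrix.trace_smul, Matrix.trace_smul, trace_R, Matrix.trace_one,
          Fintype.card_fin, smul_eq_mul, smul_eq_mul]
        push_cast
        field_simp
        ring)
    rw [mul_sub, mul_smul_comm, mul_smul_comm, mul_one, Matrix.trace_sub, Matrix.trace_smul,
      Matrix.trace_smul, (h1 X hX).2, smul_zero, sub_zero, mul_R, trace_R, smul_eq_mul] at h4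
    rcases mul_eq_zero.1 h4 with h5 | h5
    · exact absurd h5 Complex.I_ne_zero
    · exact h5
  have hu0 : u ≠ 0 := by
    rintro rfl
    rw [Matrix.mulVec_zero, hf_zero_left] at hc
    exact hc rfl
  have hU := step h1 h2 hX hu hc
  -- (B)
  by_cases huv : hf v u = 0
  · obtain ⟨c, rfl⟩ := Pool.Agent.N966.BTEV.signature hu0 hu huv hv
    have h6 : star (c * star c) = c * star c := by
      rw [star_mul', star_star, mul_comm]
    have h7 := real_mem hU h6
    have e9 : Complex.I • R (c • u) (c • u) = (c * star c) • (Complex.I • R u u) := by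
      rw [R_smul_left, R_smul_right, smul_smul, smul_smul, smul_smul]
      congr 1
      ring
    rw [e9]
    exact h7
  · refine step h1 h2 hU hv ?_
    rw [Matrix.smul_mulVec, Pool.Agent.N73.BT.R_apply, hf_smul_left, hf_smul_left]
    refine mul_ne_zero Complex.I_ne_zero (mul_ne_zero huv ?_)
    intro h8
    apply huv
    rw [hf_conj, h8, star_zero]

end Pool.Agent.N803.BTPI
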