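import Pool.Agent.N803.LC.Adb

/-!
# LC/ADB: the adapted basis
-/

namespace Pool.Agent.N803.LCADB

/-- **The adapted basis for an algebra and its commutant on a symplectic space.** -/
theorem main : Pool.Agent.N208.LC.S_ADB := Pool.Agent.N803.LC.adb

end Pool.Agent.N803.LCADB
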