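import Pool.Agent.N906.RS.Stm

/-!
# Project RS: trivial bounds for the number of primes of `K`, theorem `cnt : S_CNT K`

(`norm_pp` and `card_over` are as in `Pool.Agent.H927R2.RD.T10b`.)
-/

set_option autoImplicit false

namespace Pool.Agent.N803.RS

open NumberField IsDedekindDomain Finset Pool.Agent.H691R3 Pool.Agent.W223.AK
open Pool.Agent.N906.RS (S_CNT)

variable {K : Type} [Field K] [NumberField K]

/-- the rational prime below a prime ideal -/
lemma norm_pp {P : Ideal (𝓞 K)} (h : P.IsPrime) (h0 : P ≠ ⊥) :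
    ∃ (p : ℕ) (f : ℕ), p.Prime ∧ f ≠ 0 ∧ Ideal.absNorm P = p ^ f ∧
      P.LiesOver (Ideal.span {(p : ℤ)}) := by
  classical
  have hmax : P.IsMaximal := h.isMaximal h0
  have := hmax
  obtain ⟨p, hp⟩ : ∃ p : ℤ, Ideal.span {p} = P.under ℤ := by
    obtain ⟨p, hp⟩ := (IsPrincipalIdealRing.principal (P.under ℤ)).principal
    exact ⟨p, hp.symm⟩
  have hne : P.under ℤ ≠ ⊥ := by
    intro hb
    exact h0 (Ideal.eq_bot_of_comap_eq_bot hb)
  have hpp : Prime p := by
    have hpr : (P.under ℤ).IsPrime := inferInstance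
    rw [← hp] at hpr hne
    exact (Ideal.span_singleton_prime (by simpa using hne)).mp hpr
  have hlo : P.LiesOver (Ideal.span {(p.natAbs : ℤ)}) := by
    constructor
    rw [← hp]
    simp
  have hnp : p.natAbs.Prime := Int.prime_iff_natAbs_prime.mp hpp
  have h1 := Ideal.absNorm_eq_pow_inertiaDeg' P hnp
  refine ⟨p.natAbs, (Ideal.span {(p.natAbs : ℤ)}).inertiaDeg' P, hnp, ?_, h1, hlo⟩
  intro h4
  rw [h4, pow_zero, Ideal.absNorm_eq_one_iff] at h1
  exact h.ne_top h1

/-- at most `[K : ℚ]` primes over `p` -/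
lemma card_over {p : ℕ} (hp : p.Prime) (A : Finset (Ideal (𝓞 K)))
    (hA : ∀ P ∈ A, P.IsPrime ∧ P.LiesOver (Ideal.span {(p : ℤ)})) :
    A.card ≤ Module.finrank ℚ K := by
  classical
  have hp0 : Ideal.span {(p : ℤ)} ≠ ⊥ := by
    simpa using hp.ne_zero
  have hpr : (Ideal.span {(p : ℤ)}).IsPrime := by
    rw [Ideal.span_singleton_prime (by exact_mod_cast hp.ne_zero)]
    exact Nat.prime_iff_prime_int.mp hp
  have : (Ideal.span {(p : ℤ)}).IsMaximal := hpr.isMaximal hp0
  refine le_trans (Finset.card_le_card ?_)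
    (Ideal.card_primesOverFinset_le_finrank (S := 𝓞 K) (K := ℚ) (L := K) hp0)
  intro P hP
  rw [IsDedekindDomain.mem_primesOverFinset_iff hp0]
  exact ⟨(hA P hP).1, (hA P hP).2⟩

/-- the norm as a natural number -/
noncomputable def nn (v : HeightOneSpectrum (𝓞 K)) : ℕ := Ideal.absNorm v.asIdeal

lemma nn_ne_zero (v : HeightOneSpectrum (𝓞 K)) : nn v ≠ 0 := by
  unfold nn
  rw [Ne, Ideal.absNorm_eq_zero_iff]
  exact v.ne_bot

lemma Nv_eq (v : HeightOneSpectrum (𝓞 K)) : Nv v = (nn v : ℝ) := rfl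

/-- few primes of a given norm -/
lemma card_fiber (s : Finset (HeightOneSpectrum (𝓞 K))) (n : ℕ) :
    (s.filter fun v => nn v = n).card ≤ Module.finrank ℚ K := by
  classical
  rcases (s.filter fun v => nn v = n).eq_empty_or_nonempty with h | ⟨v₀, hv₀⟩
  · rw [h, Finset.card_empty]
    exact Nat.zero_le _
  obtain ⟨p, f, hp, hf, hn, -⟩ := norm_pp v₀.isPrime v₀.ne_bot
  have hn' : n = p ^ f := by
    rw [← hn]
    exact (mem_filter.1 hv₀).2.symm
  have hinj : Function.Injective fun v : HeightOneSpectrum (𝓞 K) => v.asIdeal :=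
    fun v w h => HeightOneSpectrum.ext h
  have h1 := card_over (K := K) hp ((s.filter fun v => nn v = n).image fun v => v.asIdeal) (by
    intro P hP
    obtain ⟨v, hv, rfl⟩ := mem_image.1 hP
    refine ⟨v.isPrime, ?_⟩
    obtain ⟨q, g, hq, hg, hm, hlo⟩ := norm_pp v.isPrime v.ne_bot
    have e : q ^ g = p ^ f := by
      rw [← hm, ← hn']
      exact (mem_filter.1 hv).2
    have e2 : q = p := by
      have h2 : q ∣ p ^ f := by
        rw [← e]
        exact dvd_pow_self q hg
      exact (Nat.prime_dvd_prime_iff_eq hq hp).1 (hq.dvd_of_dvd_pow h2)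
    rw [← e2]
    exact hlo)
  rwa [card_image_of_injective _ hinj] at h1

theorem cnt (K : Type) [Field K] [NumberField K] : S_CNT K := by
  classical
  have hd : 0 < Module.finrank ℚ K := Module.finrank_pos
  have hd' : (0 : ℝ) < Module.finrank ℚ K := by exact_mod_cast hd
  refine ⟨2 * Module.finrank ℚ K, by positivity, ?_, ?_⟩
  · intro Y s hY hs
    have h1 : s.card ≤ Module.finrank ℚ K * (Icc 1 ⌊Y⌋₊).card := by
      refine Finset.card_le_mul_card_image_of_maps_to (f := nn) (fun v hv => ?_) _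
        (fun n _ => card_fiber s n)
      rw [mem_Icc]
      exact ⟨Nat.one_le_iff_ne_zero.2 (nn_ne_zero v), Nat.le_floor (hs v hv)⟩
    rw [Nat.card_Icc, Nat.add_sub_cancel] at h1
    have h2 : (⌊Y⌋₊ : ℝ) ≤ Y := Nat.floor_le (by linarith)
    calc (s.card : ℝ) ≤ (Module.finrank ℚ K : ℝ) * (⌊Y⌋₊ : ℝ) := by exact_mod_cast h1
      _ ≤ 2 * (Module.finrank ℚ K : ℝ) * Y := by nlinarith
  · intro V s hV hs
    set m : ℕ := ⌊V⌋₊ with hm
    have hm1 : 1 ≤ m := by
      rw [hm]
      exact Nat.le_floor (by exact_mod_cast hV)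
    have hm2 : V < m + 1 := Nat.lt_floor_add_one V
    have hm1' : (1 : ℝ) ≤ m := by exact_mod_cast hm1
    set M : ℕ := m + ∑ v ∈ s, nn v with hM
    have hmaps : ∀ v ∈ s, nn v ∈ Ioc m M := by
      intro v hv
      rw [mem_Ioc]
      constructor
      · have h2 := hs v hv
        rw [Nv_eq] at h2
        rw [hm, Nat.floor_lt (by linarith)]
        exact h2
      · have h3 : nn v ≤ ∑ v ∈ s, nn v := Finset.single_le_sum (fun _ _ => Nat.zero_le _) hv
        omega
    calc ∑ v ∈ s, ((Nv v) ^ 2)⁻¹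
        = ∑ n ∈ Ioc m M, ∑ v ∈ s.filter (fun v => nn v = n), ((Nv v) ^ 2)⁻¹ :=
          (Finset.sum_fiberwise_of_maps_to hmaps _).symm
      _ ≤ ∑ n ∈ Ioc m M, (Module.finrank ℚ K : ℝ) * ((n : ℝ) ^ 2)⁻¹ := by
          refine Finset.sum_le_sum fun n _ => ?_
          have h4 : ∑ v ∈ s.filter (fun v => nn v = n), ((Nv v) ^ 2)⁻¹ =
              ((s.filter fun v => nn v = n).card : ℝ) * ((n : ℝ) ^ 2)⁻¹ := by
            rw [← nsmul_eq_mul, ← Finset.sum_const]
            refine Finset.sum_congr rfl fun v hv => ?_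
            rw [Nv_eq, (mem_filter.1 hv).2]
          rw [h4]
          refine mul_le_mul_of_nonneg_right ?_ (by positivity)
          exact_mod_cast card_fiber s n
      _ = (Module.finrank ℚ K : ℝ) * ∑ n ∈ Ioc m M, ((n : ℝ) ^ 2)⁻¹ := by rw [Finset.mul_sum]
      _ ≤ (Module.finrank ℚ K : ℝ) * ((m : ℝ)⁻¹ - (M : ℝ)⁻¹) := by
          refine mul_le_mul_of_nonneg_left ?_ hd'.le
          exact sum_Ioc_inv_sq_le_sub (by omega) (by omega)
      _ ≤ (Module.finrank ℚ K : ℝ) * (2 / V) := by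
          refine mul_le_mul_of_nonneg_left ?_ hd'.le
          have h5 : (0 : ℝ) ≤ (M : ℝ)⁻¹ := by positivity
          have h6 : (m : ℝ)⁻¹ ≤ 2 / V := by
            rw [inv_eq_one_div, div_le_div_iff₀ (by linarith) (by linarith)]
            linarith
          linarith
      _ = 2 * (Module.finrank ℚ K : ℝ) / V := by ring

end Pool.Agent.N803.RS
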