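import Pool.Agent.N795.ST.Stm

/-!
# Project ST: one sided comparison of two stirring laws, theorem `cmp_up : CmpUp`
-/

set_option autoImplicit false

namespace Pool.Agent.N795.ST

open Finset Equiv
open Pool.Agent.TH268.PD (law PJ UnifLaw unif_law)

namespace N803Cmp

lemma three {V : Type} [Fintype V] (G : V → V → V → ℝ) :
    ∑ x, ∑ y, ∑ a, G x y a = ∑ a, ∑ x, ∑ y, G x y a := by
  rw [Finset.sum_comm]
  refine (Finset.sum_congr rfl fun y _ => Finset.sum_comm).trans ?_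
  rw [Finset.sum_comm]
  refine Finset.sum_congr rfl fun a _ => Finset.sum_comm

lemma four {V : Type} [Fintype V] (w1 w2 : V → V → ℝ) (D : V → V → V → V → ℝ) :
    ∑ x, ∑ y, w2 x y * ∑ a, ∑ b, w1 a b * D x y a b =
      ∑ a, ∑ b, w1 a b * ∑ x, ∑ y, w2 x y * D x y a b := by
  have e1 : ∑ x, ∑ y, w2 x y * ∑ a, ∑ b, w1 a b * D x y a b =
      ∑ x, ∑ y, ∑ a, ∑ b, w1 a b * (w2 x y * D x y a b) := by
    refine Finset.sum_congr rfl fun x _ => Finset.sum_congr rfl fun y _ => ?_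
    rw [Finset.mul_sum]
    refine Finset.sum_congr rfl fun a _ => ?_
    rw [Finset.mul_sum]
    refine Finset.sum_congr rfl fun b _ => ?_
    ring
  have e2 : ∑ a, ∑ b, w1 a b * ∑ x, ∑ y, w2 x y * D x y a b =
      ∑ a, ∑ b, ∑ x, ∑ y, w1 a b * (w2 x y * D x y a b) := by
    refine Finset.sum_congr rfl fun a _ => Finset.sum_congr rfl fun b _ => ?_
    rw [Finset.mul_sum]
    refine Finset.sum_congr rfl fun x _ => ?_
    rw [Finset.mul_sum]
  rw [e1, e2, three fun x y a => ∑ b, w1 a b * (w2 x y * D x y a b)]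
  refine Finset.sum_congr rfl fun a _ => ?_
  exact three fun x y b => w1 a b * (w2 x y * D x y a b)

variable {V : Type} [Fintype V] [DecidableEq V]

/-- the property of `F` -/
def Pr (J₂ : V → V → ℝ) (G : ℝ) (F : Perm V → ℝ) : Prop :=
  ∀ g₁ g₂ : Perm V, ∑ x, ∑ y, J₂ x y / 2 * (F (g₁ * swap x y * g₂) - F (g₁ * g₂)) ≤ G

lemma PJ_pr {J₁ J₂ : V → V → ℝ} {R G : ℝ} (hR : 0 < R) (hJ : ∀ x y, 0 ≤ J₁ x y)
    (hRJ : ∑ x, ∑ y, J₁ x y / 2 ≤ R) {F : Perm V → ℝ} (hF : Pr J₂ G F) :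
    Pr J₂ G (PJ J₁ R F) := by
  intro g₁ g₂
  have key : ∑ x, ∑ y, J₂ x y / 2 * (PJ J₁ R F (g₁ * swap x y * g₂) - PJ J₁ R F (g₁ * g₂)) =
      (∑ a, ∑ b, J₁ a b / 2 * (∑ x, ∑ y, J₂ x y / 2 *
          (F (g₁ * swap x y * (g₂ * swap a b)) - F (g₁ * (g₂ * swap a b)))) +
        (R - ∑ a, ∑ b, J₁ a b / 2) *
          (∑ x, ∑ y, J₂ x y / 2 * (F (g₁ * swap x y * g₂) - F (g₁ * g₂)))) / R := by
    rw [← four (fun a b => J₁ a b / 2) (fun x y => J₂ x y / 2)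
      (fun x y a b => F (g₁ * swap x y * (g₂ * swap a b)) - F (g₁ * (g₂ * swap a b)))]
    rw [Finset.mul_sum, ← Finset.sum_add_distrib, Finset.sum_div]
    refine Finset.sum_congr rfl fun x _ => ?_
    rw [Finset.mul_sum, ← Finset.sum_add_distrib, Finset.sum_div]
    refine Finset.sum_congr rfl fun y _ => ?_
    unfold PJ
    have e : ∑ a, ∑ b, J₁ a b / 2 *
        (F (g₁ * swap x y * (g₂ * swap a b)) - F (g₁ * (g₂ * swap a b))) =
        ∑ a, ∑ b, J₁ a b / 2 * F (g₁ * swap x y * g₂ * swap a b) -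
          ∑ a, ∑ b, J₁ a b / 2 * F (g₁ * g₂ * swap a b) := by
      rw [← Finset.sum_sub_distrib]
      refine Finset.sum_congr rfl fun a _ => ?_
      rw [← Finset.sum_sub_distrib]
      refine Finset.sum_congr rfl fun b _ => ?_
      rw [mul_sub, ← mul_assoc (g₁ * swap x y) g₂, ← mul_assoc g₁ g₂]
    simp only [e]
    ring
  rw [key, div_le_iff₀ hR]
  have h1 : ∑ a, ∑ b, J₁ a b / 2 * (∑ x, ∑ y, J₂ x y / 2 *
      (F (g₁ * swap x y * (g₂ * swap a b)) - F (g₁ * (g₂ * swap a b)))) ≤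
      (∑ a, ∑ b, J₁ a b / 2) * G := by
    rw [Finset.sum_mul]
    refine Finset.sum_le_sum fun a _ => ?_
    rw [Finset.sum_mul]
    refine Finset.sum_le_sum fun b _ => ?_
    exact mul_le_mul_of_nonneg_left (hF g₁ (g₂ * swap a b)) (div_nonneg (hJ a b) two_pos.le)
  have h2 : (R - ∑ a, ∑ b, J₁ a b / 2) *
      (∑ x, ∑ y, J₂ x y / 2 * (F (g₁ * swap x y * g₂) - F (g₁ * g₂))) ≤
      (R - ∑ a, ∑ b, J₁ a b / 2) * G :=
    mul_le_mul_of_nonneg_left (hF g₁ g₂) (by linarith)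
  linarith

lemma PJ_iter_pr {J₁ J₂ : V → V → ℝ} {R G : ℝ} (hR : 0 < R) (hJ : ∀ x y, 0 ≤ J₁ x y)
    (hRJ : ∑ x, ∑ y, J₁ x y / 2 ≤ R) {F : Perm V → ℝ} (hF : Pr J₂ G F) (n : ℕ) :
    Pr J₂ G ((PJ J₁ R)^[n] F) := by
  induction n with
  | zero => exact hF
  | succ n ih =>
    rw [Function.iterate_succ_apply']
    exact PJ_pr hR hJ hRJ ih

lemma mono {J : V → V → ℝ} {R c : ℝ} (hR : 0 < R) (hJ : ∀ x y, 0 ≤ J x y)
    (hRJ : ∑ x, ∑ y, J x y / 2 ≤ R) {F F' : Perm V → ℝ} (hF : ∀ g, F g ≤ F' g + c)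
    (g : Perm V) : PJ J R F g ≤ PJ J R F' g + c := by
  unfold PJ
  have e : (∑ x, ∑ y, J x y / 2 * F' (g * swap x y) + (R - ∑ x, ∑ y, J x y / 2) * F' g) / R + c =
      (∑ x, ∑ y, J x y / 2 * (F' (g * swap x y) + c) +
        (R - ∑ x, ∑ y, J x y / 2) * (F' g + c)) / R := by
    have e1 : ∑ x, ∑ y, J x y / 2 * (F' (g * swap x y) + c) =
        ∑ x, ∑ y, J x y / 2 * F' (g * swap x y) + (∑ x, ∑ y, J x y / 2) * c := by
      simp only [mul_add, Finset.sum_add_distrib, Finset.sum_mul]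
    rw [e1]
    field_simp
    ring
  rw [e]
  refine div_le_div_of_nonneg_right (add_le_add ?_ ?_) hR.le
  · refine Finset.sum_le_sum fun x _ => Finset.sum_le_sum fun y _ => ?_
    exact mul_le_mul_of_nonneg_left (hF _) (div_nonneg (hJ x y) two_pos.le)
  · exact mul_le_mul_of_nonneg_left (hF g) (by linarith)

lemma step {J₁ J₂ : V → V → ℝ} {R G : ℝ} (hR : 0 < R) {F : Perm V → ℝ} (hF : Pr J₂ G F)
    (g : Perm V) : PJ (fun x y => J₁ x y + J₂ x y) R F g ≤ PJ J₁ R F g + G / R := by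
  have h1 := hF g 1
  simp only [mul_one] at h1
  unfold PJ
  rw [← add_div]
  refine div_le_div_of_nonneg_right ?_ hR.le
  have e : ∑ x, ∑ y, (J₁ x y + J₂ x y) / 2 * F (g * swap x y) +
      (R - ∑ x, ∑ y, (J₁ x y + J₂ x y) / 2) * F g =
      ∑ x, ∑ y, J₁ x y / 2 * F (g * swap x y) + (R - ∑ x, ∑ y, J₁ x y / 2) * F g +
      ∑ x, ∑ y, J₂ x y / 2 * (F (g * swap x y) - F g) := by
    have e1 : ∀ x y, (J₁ x y + J₂ x y) / 2 * F (g * swap x y) =
        J₁ x y / 2 * F (g * swap x y) + J₂ x y / 2 * F (g * swap x y) := fun x y => by ring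
    have e2 : ∀ x y, (J₁ x y + J₂ x y) / 2 = J₁ x y / 2 + J₂ x y / 2 := fun x y => by ring
    have e3 : ∀ x y, J₂ x y / 2 * (F (g * swap x y) - F g) =
        J₂ x y / 2 * F (g * swap x y) - J₂ x y / 2 * F g := fun x y => by ring
    simp only [e1, e3]
    simp only [e2, Finset.sum_add_distrib, Finset.sum_sub_distrib, ← Finset.sum_mul]
    ring
  rw [e]
  linarith

lemma iter_le {J₁ J₂ : V → V → ℝ} {R G : ℝ} (hR : 0 < R) (hJ₁ : ∀ x y, 0 ≤ J₁ x y)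
    (hJ₂ : ∀ x y, 0 ≤ J₂ x y) (hR₁ : ∑ x, ∑ y, J₁ x y / 2 ≤ R)
    (hR₂ : ∑ x, ∑ y, (J₁ x y + J₂ x y) / 2 ≤ R)
    {F : Perm V → ℝ} (hF : Pr J₂ G F) (n : ℕ) : ∀ g : Perm V,
    ((PJ (fun x y => J₁ x y + J₂ x y) R)^[n] F) g ≤ ((PJ J₁ R)^[n] F) g + n * (G / R) := by
  induction n with
  | zero => intro g; simp
  | succ n ih =>
    intro g
    rw [Function.iterate_succ_apply', Function.iterate_succ_apply']
    have h1 := mono (J := fun x y => J₁ x y + J₂ x y) hR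
      (fun x y => add_nonneg (hJ₁ x y) (hJ₂ x y)) hR₂ ih g
    have h2 := step (J₁ := J₁) hR (PJ_iter_pr hR hJ₁ hR₁ hF n) g
    push_cast
    linarith

end N803Cmp

theorem cmp_up : CmpUp := by
  intro V _ _ J₁ J₂ t G F hJ₁ hJ₂ ht hF
  have hn₁ : 0 ≤ ∑ x, ∑ y, J₁ x y / 2 := Finset.sum_nonneg fun x _ =>
    Finset.sum_nonneg fun y _ => div_nonneg (hJ₁ x y) two_pos.le
  have hn₂ : 0 ≤ ∑ x, ∑ y, (J₁ x y + J₂ x y) / 2 := Finset.sum_nonneg fun x _ =>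
    Finset.sum_nonneg fun y _ => div_nonneg (add_nonneg (hJ₁ x y) (hJ₂ x y)) two_pos.le
  obtain ⟨R, hR, hR₁, hR₂⟩ : ∃ R : ℝ, 0 < R ∧ ∑ x, ∑ y, J₁ x y / 2 ≤ R ∧
      ∑ x, ∑ y, (J₁ x y + J₂ x y) / 2 ≤ R :=
    ⟨1 + (∑ x, ∑ y, J₁ x y / 2) + ∑ x, ∑ y, (J₁ x y + J₂ x y) / 2, by linarith, by linarith,
      by linarith⟩
  have h1 := unif_law V (fun x y => J₁ x y + J₂ x y) t R F hR
  have h1' := unif_law V J₁ t R F hR
  have h2 : HasSum (fun n : ℕ => Real.exp (-(t * R)) * (t * R) ^ n / (n.factorial : ℝ) *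
      (n * (G / R))) (t * G) := by
    have h3 := (Pool.Agent.TH268.PD.NI.hs_one (t * R)).mul_left (Real.exp (-(t * R)) * (G / R))
    have h4 : Real.exp (-(t * R)) * (G / R) * (t * R * Real.exp (t * R)) = t * G := by
      have h5 : Real.exp (-(t * R)) * Real.exp (t * R) = 1 := by
        rw [← Real.exp_add, neg_add_cancel, Real.exp_zero]
      calc Real.exp (-(t * R)) * (G / R) * (t * R * Real.exp (t * R))
          = (Real.exp (-(t * R)) * Real.exp (t * R)) * (G / R * (t * R)) := by ring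
        _ = t * G := by
          rw [h5, one_mul]
          field_simp
    rw [h4] at h3
    refine h3.congr_fun fun n => ?_
    ring
  refine hasSum_le (fun n => ?_) h1 (h1'.add h2)
  have hc : 0 ≤ Real.exp (-(t * R)) * (t * R) ^ n / (n.factorial : ℝ) := by positivity
  have h6 := mul_le_mul_of_nonneg_left (N803Cmp.iter_le hR hJ₁ hJ₂ hR₁ hR₂ hF n 1) hc
  rw [mul_add] at h6
  exact h6

end Pool.Agent.N795.ST
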