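import Pool.Agent.N795.ST.Stm

/-!
# Project ST: boxes of the torus, theorem `geo : Geo`
-/

set_option autoImplicit false

namespace Pool.Agent.N795.ST

open Finset
open Pool.Agent.TH268.PD.LocC (E E_fst E_snd e1_apply f1)

namespace N803Geo

lemma vma {N : ℕ} [NeZero N] {r : ℤ} (h : 2 * |r| < N) {x : ZMod N} (hx : x = (r : ZMod N)) :
    x.valMinAbs = r := by
  rw [ZMod.valMinAbs_spec]
  refine ⟨hx, ?_, ?_⟩
  · have := neg_abs_le r
    linarith
  · have := le_abs_self r
    linarith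

lemma cast_sub {m n : ℕ} [NeZero m] [NeZero n] [NeZero (m * n)] {a b : ZMod (m * n)}
    (h : a.val / n = b.val / n) :
    a - b = (((((a.val % n : ℕ) : ℤ) - ((b.val % n : ℕ) : ℤ)) : ℤ) : ZMod (m * n)) := by
  have h1 : ((a.val : ℕ) : ℤ) - ((b.val : ℕ) : ℤ) =
      ((a.val % n : ℕ) : ℤ) - ((b.val % n : ℕ) : ℤ) := by
    have ha := Nat.div_add_mod a.val n
    have hb := Nat.div_add_mod b.val n
    rw [h] at ha
    have ha' : ((a.val : ℕ) : ℤ) = ((n * (b.val / n) : ℕ) : ℤ) + ((a.val % n : ℕ) : ℤ) := by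
      rw [← Nat.cast_add, ha]
    have hb' : ((b.val : ℕ) : ℤ) = ((n * (b.val / n) : ℕ) : ℤ) + ((b.val % n : ℕ) : ℤ) := by
      rw [← Nat.cast_add, hb]
    rw [ha', hb']
    ring
  rw [← h1, Int.cast_sub, Int.cast_natCast, Int.cast_natCast, ZMod.natCast_zmod_val,
    ZMod.natCast_zmod_val]

lemma fst_iff {d m n : ℕ} [NeZero m] [NeZero n] [NeZero (m * n)] (x y : Fin d → ZMod (m * n)) :
    (E m n d x).1 = (E m n d y).1 ↔ ∀ i, (x i).val / n = (y i).val / n := by
  constructor
  · intro h i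
    have := congrArg Fin.val (congrFun h i)
    rw [E_fst, E_fst, e1_apply, e1_apply] at this
    exact this
  · intro h
    funext i
    rw [E_fst, E_fst, e1_apply, e1_apply]
    exact Fin.ext (h i)

lemma snd_val {d m n : ℕ} [NeZero m] [NeZero n] [NeZero (m * n)] (x : Fin d → ZMod (m * n))
    (i : Fin d) : ((E m n d x).2 i).val = (x i).val % n := by
  rw [E_snd, e1_apply]
  exact ZMod.val_natCast _ _

end N803Geo

open N803Geo in
theorem geo : Geo := by
  intro d m n _ _ _ x y
  refine ⟨?_, ?_⟩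
  · rw [fst_iff]
    unfold bcore
    constructor
    · intro h
      refine ⟨fun i => (h i).1, fun i => ⟨?_, ?_⟩⟩
      · rw [snd_val, snd_val, Nat.div_eq_of_lt (Nat.mod_lt _ (NeZero.pos n)),
          Nat.div_eq_of_lt (Nat.mod_lt _ (NeZero.pos n))]
      · rw [snd_val, snd_val, Nat.mod_mod, Nat.mod_mod]
        exact (h i).2
    · rintro ⟨h1, h2⟩ i
      refine ⟨h1 i, ?_⟩
      have := (h2 i).2
      rw [snd_val, snd_val, Nat.mod_mod, Nat.mod_mod] at this
      exact this
  · intro h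
    funext i
    obtain ⟨h1, h2⟩ := h i
    have hn : n ≤ m * n := Nat.le_mul_of_pos_left n (NeZero.pos m)
    have h3 : (x i - y i).valMinAbs =
        (((x i).val % n : ℕ) : ℤ) - (((y i).val % n : ℕ) : ℤ) :=
      vma (lt_of_lt_of_le h2 (by exact_mod_cast hn)) (cast_sub h1)
    have h4 : ((E m n d x).2 i - (E m n d y).2 i).valMinAbs =
        (((x i).val % n : ℕ) : ℤ) - (((y i).val % n : ℕ) : ℤ) := by
      refine vma h2 ?_
      have e : ∀ z : Fin d → ZMod (m * n), (E m n d z).2 i = (((z i).val % n : ℕ) : ZMod n) := by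
        intro z
        rw [← snd_val (m := m) (n := n) z i, ZMod.natCast_zmod_val]
      rw [e x, e y, Int.cast_sub, Int.cast_natCast, Int.cast_natCast]
    show (x i - y i).valMinAbs = ((E m n d x).2 i - (E m n d y).2 i).valMinAbs
    rw [h3, h4]

end Pool.Agent.N795.ST
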